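import Pool.Agent.V11250.SgAlg2

/-!
# MP_c05c30_lc, Q1: disproved

A logically homogeneous semigroup `S` such that for no field `P` the semigroup algebra `PS` is
logically homogeneous. The definitions `LogHom`, `LSg`, `LAlg` are in
`Pool.Agent.V11250.LogHomDefs`.
-/

set_option autoImplicit false
set_option linter.style.haveILetI false

namespace Pool.Agent.Results.MP_c05c30_lc.SemigroupAlgebra

open FirstOrder FirstOrder.Language Pool.Agent.V11250.LogHomDefs Pool.Agent.V11250.SgAlg

/-- The field `P` is logically homogeneous, in the language of rings. -/
def FieldLogHom (P : Type) [Field P] : Prop :=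
  letI := FirstOrder.Ring.compatibleRingOfRing P
  LogHom Language.ring P

/-- There are a logically homogeneous semigroup `S` and a logically homogeneous field `P` such
that the semigroup algebra `PS` is not logically homogeneous. Moreover for the same semigroup
`S` the algebra `PS` is not logically homogeneous for any field `P`. -/
theorem result : ∃ (S : Type) (_ : Semigroup S), LogHom LSg S ∧
    (∃ (P : Type) (_ : Field P), FieldLogHom P ∧ ¬ LogHom (LAlg P) (MonoidAlgebra P S)) ∧
    ∀ (P : Type) [Field P], ¬ LogHom (LAlg P) (MonoidAlgebra P S) :=
  ⟨SS, inferInstance, ss_logHom, ⟨ZMod 2, inferInstance, zmod_logHom, not_logHom (ZMod 2)⟩,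
    fun P _ => not_logHom P⟩

end Pool.Agent.Results.MP_c05c30_lc.SemigroupAlgebra
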